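import Pool.Agent.MP_f411ce_al.LT.KG
import Pool.Agent.MP_f411ce_al.LT.Star
import Pool.Agent.MP_f411ce_al.LT.Om
import Pool.Agent.MP_f411ce_al.LT.Act
import Pool.Agent.MP_f411ce_al.LT.QA
import Pool.Agent.MP_f411ce_al.LT.Hel
import Pool.Agent.MP_f411ce_al.LT.Ev
import Pool.Agent.MP_f411ce_al.LT.Un
import Pool.Agent.MP_f411ce_al.LT.Fin

set_option autoImplicit false

namespace Pool.Agent.Results.MP_f411ce_al.LargeType

open Pool.Agent.MP_f411ce_al.LT

/-- Every Artin group of large type acts geometrically on a Helly graph. -/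
theorem result (B : Type) [Finite B] (M : CoxeterMatrix B) (hM : ∀ i j, M i j ≠ 2) :
    ∃ (V : Type) (G : SimpleGraph V)
      (ρ : PresentedGroup {r : FreeGroup B | ∃ i j : B,
              r = ((CoxeterSystem.braidWord M i j).map FreeGroup.of).prod *
                (((CoxeterSystem.braidWord M j i).map FreeGroup.of).prod)⁻¹} →* (G ≃g G)),
      G.Connected ∧
      (∀ v : V, (G.neighborSet v).Finite) ∧
      (∀ S : Set (V × ℕ),
          (∀ p ∈ S, ∀ q ∈ S, ∃ x : V, G.dist p.1 x ≤ p.2 ∧ G.dist q.1 x ≤ q.2) →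
          ∃ x : V, ∀ p ∈ S, G.dist p.1 x ≤ p.2) ∧
      (∀ v : V, {g | ρ g v = v}.Finite) ∧
      ∃ F : Finset V, ∀ v : V, ∃ g, ∃ w ∈ F, ρ g w = v :=
  fin_pf (act_pf (om_pf kg_pf (star_pf kg_pf))) qa_pf (hel_pf qa_pf) ev_pf un_pf B M hM

end Pool.Agent.Results.MP_f411ce_al.LargeType
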